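import Pool.Agent.H94.G4T.M07
import Pool.Agent.H94.G4T.M16

/-!
# G3 A GeoC: the constants of the geometry of the lines of direction `a`

`sep`: `Bad` is finite modulo `Λ` (discrete): the distances `‖β - β'‖`, `β ≠ β'`, are bounded below.  Then `ρ` small such that `β + z a ∉ D` for `0 < |z| ≤ 2 ρ`
(`iso` at the finitely many classes of `β`).  `ann`: the annulus is compact, `D` closed, finitely many classes.  `circ`: for `y₀` choose `0 < r < ρ / 2` with no point of `D` on the circle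
`|z| = r` (`{z | y₀ + z a ∈ D}` is discrete in `ℂ`, so countable), distance `≥ 4 δ(y₀) > 0`; it works for all `y` near `y₀`; compactness modulo `Λ` (`lat.cpt`).  `circC`: if `‖y₀ - β‖ ≥ ρ` for all
`β ∈ Bad`: `r < ρ / 4`; if `‖y₀ - β‖ < ρ`: `r ∈ (7/4 ρ, 2 ρ)`, `‖a‖ = 1`: distance to `β` at least `3/4 ρ`, to the other bad points at least `5 ρ`.  `strip`: two exact hits of a line with the
same class differ by `z` with `z a ∈ Λ`: they are on a line parallel to `ω` (`rank`); finitely many classes.  `4 δ ≤` all these distances and `8 δ ≤ ρ`.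
`LC.thick`: from `circC`, `8 δ ≤ ρ` and `‖a‖ = 1` (move `z` radially to the circle).
-/

set_option autoImplicit false

open Topology Filter Metric

namespace Pool.Agent.G3.A

open Pool.Agent.H36.BP (EN fs wd)
open Pool.Agent.H14.PP (IsCone CurveAt Tan)
open Pool.Agent.H62.EF (MN pr)
open Pool.Agent.AD (Vd Chart Charts IsGerm)
open Pool.Agent.TG
open Pool.Agent.G3.C (Gc)

variable {N k : ℕ} {X : Set (EN N)} {Λ : AddSubgroup (Vd (k + 1))} {u : EN N → Vd (k + 1)} {D B Bad : Set (Vd (k + 1))} {a : Vd (k + 1)}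

private theorem GeoC_smul (ha : ‖a‖ = 1) (z : ℂ) : ‖z • a‖ = ‖z‖ := by rw [norm_smul, ha, mul_one]

/-- the hits of a line are isolated -/
private theorem GeoC_iso (hi : ∀ y : Vd (k + 1), ∀ᶠ z in 𝓝[≠] (0 : ℂ), y + z • a ∉ D) (y : Vd (k + 1)) (z₀ : ℂ) :
    ∃ ε : ℝ, 0 < ε ∧ ∀ z : ℂ, z ≠ z₀ → ‖z - z₀‖ < ε → y + z • a ∉ D := by
  have h1 := hi (y + z₀ • a)
  rw [eventually_nhdsWithin_iff, Metric.eventually_nhds_iff] at h1
  obtain ⟨ε, hε, h2⟩ := h1
  refine ⟨ε, hε, fun z hz hlt => ?_⟩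
  have h3 := h2 (y := z - z₀) (by rw [dist_zero_right]; exact hlt) (by
    simp only [Set.mem_compl_iff, Set.mem_singleton_iff]
    exact sub_ne_zero.2 hz)
  have e : y + z₀ • a + (z - z₀) • a = y + z • a := by rw [sub_smul]; abel
  rwa [e] at h3

private theorem GeoC_countable (hi : ∀ y : Vd (k + 1), ∀ᶠ z in 𝓝[≠] (0 : ℂ), y + z • a ∉ D) (y : Vd (k + 1)) : {z : ℂ | y + z • a ∈ D}.Countable := by
  set S : Set ℂ := {z : ℂ | y + z • a ∈ D} with hS
  have hd : DiscreteTopology S := by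
    rw [discreteTopology_subtype_iff]
    intro z hz
    obtain ⟨ε, hε, h⟩ := GeoC_iso hi y z
    rw [← disjoint_iff, Filter.disjoint_principal_right, mem_nhdsWithin]
    refine ⟨ball z ε, isOpen_ball, mem_ball_self hε, ?_⟩
    rintro w ⟨hw1, hw2⟩ hwS
    exact h w hw2 (by rw [← dist_eq_norm]; exact hw1) hwS
  have : Countable S := by
    have := hd
    exact countable_of_Lindelof_of_discrete
  exact this

/-- a compact set of parameters without hits -/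
private theorem GeoC_dist (hD : IsClosed D) {K : Set ℂ} (hK : IsCompact K) (y : Vd (k + 1)) (h : ∀ z ∈ K, y + z • a ∉ D) :
    ∃ d : ℝ, 0 < d ∧ ∀ z ∈ K, y + z • a ∈ Gd D d := by
  have hc : IsCompact ((fun z : ℂ => y + z • a) '' K) := hK.image (by fun_prop)
  have hdis : Disjoint ((fun z : ℂ => y + z • a) '' K) D := by
    rw [Set.disjoint_left]
    rintro _ ⟨z, hz, rfl⟩
    exact h z hz
  obtain ⟨d, hd, hd2⟩ := hdis.exists_thickenings hc hD
  refine ⟨d, hd, fun z hz b hb => ?_⟩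
  by_contra hlt
  push Not at hlt
  refine (Set.disjoint_left.1 hd2) (a := b) ?_ ?_
  · rw [mem_thickening_iff]
    exact ⟨y + z • a, ⟨z, hz, rfl⟩, by rw [dist_comm, dist_eq_norm]; exact hlt⟩
  · rw [mem_thickening_iff]
    exact ⟨b, hb, by rw [dist_self]; exact hd⟩

/-- a circle without hits, of radius in a given interval -/
private theorem GeoC_circle (hD : IsClosed D) (hi : ∀ y : Vd (k + 1), ∀ᶠ z in 𝓝[≠] (0 : ℂ), y + z • a ∉ D) (y : Vd (k + 1)) {r₁ r₂ : ℝ} (h12 : r₁ < r₂) :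
    ∃ r : ℝ, r₁ < r ∧ r < r₂ ∧ ∃ d : ℝ, 0 < d ∧ ∀ z : ℂ, ‖z‖ = r → y + z • a ∈ Gd D d := by
  have h1 : ((fun z : ℂ => ‖z‖) '' {z : ℂ | y + z • a ∈ D}).Countable := (GeoC_countable hi y).image _
  have h2 : ¬ (Set.Ioo r₁ r₂).Countable := by
    intro h
    have h3 : Set.Ioo r₁ r₂ = ∅ ∨ r₂ ≤ r₁ := by
      by_contra hcon
      push Not at hcon
      have := Cardinal.mk_Ioo_real hcon.2
      have h4 := Cardinal.le_aleph0_iff_set_countable.2 h
      rw [this] at h4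
      exact absurd h4 (not_le.2 Cardinal.aleph0_lt_continuum)
    rcases h3 with h3 | h3
    · exact (Set.nonempty_Ioo.2 h12).ne_empty h3
    · linarith
  have h3 : ∃ r ∈ Set.Ioo r₁ r₂, r ∉ (fun z : ℂ => ‖z‖) '' {z : ℂ | y + z • a ∈ D} := by
    by_contra hcon
    push Not at hcon
    exact h2 (h1.mono fun r hr => hcon r hr)
  obtain ⟨r, hr, hr2⟩ := h3
  have hK : IsCompact (sphere (0 : ℂ) r) := isCompact_sphere 0 r
  obtain ⟨d, hd, hd2⟩ := GeoC_dist (a := a) hD hK y (fun z hz hzD => hr2 ⟨z, hzD, by rwa [mem_sphere_zero_iff_norm] at hz⟩)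
  exact ⟨r, hr.1, hr.2, d, hd, fun z hz => hd2 z (by rwa [mem_sphere_zero_iff_norm])⟩

/-- a positive constant for a finite set -/
private theorem GeoC_fin {E : Type*} {S : Set E} (hS : S.Finite) (Q : E → ℝ → Prop) (hm : ∀ s η η', Q s η → 0 < η' → η' ≤ η → Q s η') (h : ∀ s ∈ S, ∃ η : ℝ, 0 < η ∧ Q s η) :
    ∃ η : ℝ, 0 < η ∧ ∀ s ∈ S, Q s η := by
  induction S, hS using Set.Finite.induction_on with
  | empty => exact ⟨1, one_pos, fun s hs => absurd hs (Set.notMem_empty s)⟩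
  | @insert c T _ _ ih =>
    obtain ⟨η, hη, h1⟩ := ih fun s hs => h s (Set.mem_insert_of_mem _ hs)
    obtain ⟨η', hη', h2⟩ := h c (Set.mem_insert _ _)
    refine ⟨min η η', lt_min hη hη', fun s hs => ?_⟩
    rcases hs with rfl | hs
    · exact hm _ _ _ h2 (lt_min hη hη') (min_le_right _ _)
    · exact hm _ _ _ (h1 s hs) (lt_min hη hη') (min_le_left _ _)

private theorem GeoC_gd_add (h : LG Λ D Bad a) (δ : ℝ) {y l : Vd (k + 1)} (hl : l ∈ Λ) (hy : y ∈ Gd D δ) : y + l ∈ Gd D δ := by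
  intro b hb
  have h1 := hy _ (h.D_inv b hb (-l) (Λ.neg_mem hl))
  have h2 : y - (b + -l) = y + l - b := by abel
  rwa [h2] at h1

/-- the bad points are separated -/
private theorem GeoC_sep (h : LG Λ D Bad a) : ∃ η : ℝ, 0 < η ∧ ∀ β ∈ Bad, ∀ β' ∈ Bad, β ≠ β' → η ≤ ‖β - β'‖ := by
  obtain ⟨S, hS, hSB⟩ := h.bad_fin
  obtain ⟨δ, hδ, hd⟩ := h.lat.disc
  obtain ⟨η, hη, h1⟩ := GeoC_fin (S := S ×ˢ S) (hS.prod hS) (fun p η => ∀ l ∈ Λ, (p.1 - p.2) + l ≠ 0 → η ≤ ‖(p.1 - p.2) + l‖)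
    (fun s η η' hq _ hle l hl hne => hle.trans (hq l hl hne)) (by
      rintro ⟨s, s'⟩ -
      by_cases hex : ∃ l ∈ Λ, (s - s') + l ≠ 0 ∧ ‖(s - s') + l‖ < δ / 2
      · obtain ⟨l, hl, hl0, hl1⟩ := hex
        refine ⟨min ‖(s - s') + l‖ (δ / 2), lt_min (norm_pos_iff.2 hl0) (by linarith), fun l' hl' hl0' => ?_⟩
        by_cases hlt : ‖(s - s') + l'‖ < δ / 2
        · have h2 : ‖l - l'‖ < δ := by
            have e : l - l' = ((s - s') + l) - ((s - s') + l') := by abel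
            rw [e]
            refine (norm_sub_le _ _).trans_lt ?_
            linarith
          have h3 := hd _ (Λ.sub_mem hl hl') h2
          have h4 : l' = l := (sub_eq_zero.1 h3).symm
          rw [h4]
          exact min_le_left _ _
        · push Not at hlt
          exact (min_le_right _ _).trans hlt
      · push Not at hex
        exact ⟨δ / 2, by linarith, fun l hl hl0 => hex l hl hl0⟩)
  refine ⟨η, hη, fun β hβ β' hβ' hne => ?_⟩
  obtain ⟨s, hs, hl⟩ := hSB β hβ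
  obtain ⟨s', hs', hl'⟩ := hSB β' hβ'
  have h2 := h1 (s, s') ⟨hs, hs'⟩ ((β - s) - (β' - s')) (Λ.sub_mem hl hl')
  have e : s - s' + ((β - s) - (β' - s')) = β - β' := by abel
  simp only [e] at h2
  exact h2 (sub_ne_zero.2 hne)

/-- no hits near the bad points -/
private theorem GeoC_punct (h : LG Λ D Bad a) : ∃ ε : ℝ, 0 < ε ∧ ∀ β ∈ Bad, ∀ z : ℂ, z ≠ 0 → ‖z‖ < ε → β + z • a ∉ D := by
  obtain ⟨S, hS, hSB⟩ := h.bad_fin
  obtain ⟨ε, hε, h1⟩ := GeoC_fin hS (fun s ε => ∀ z : ℂ, z ≠ 0 → ‖z‖ < ε → s + z • a ∉ D)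
    (fun s η η' hq _ hle z hz hlt => hq z hz (hlt.trans_le hle)) (fun s _ => by
      obtain ⟨ε, hε, h2⟩ := GeoC_iso h.iso s 0
      exact ⟨ε, hε, fun z hz hlt => h2 z hz (by rwa [sub_zero])⟩)
  refine ⟨ε, hε, fun β hβ z hz hlt hD => ?_⟩
  obtain ⟨s, hs, hl⟩ := hSB β hβ
  refine h1 s hs z hz hlt ?_
  have h2 := h.D_inv _ hD (-(β - s)) (Λ.neg_mem hl)
  have e : β + z • a + -(β - s) = s + z • a := by abel
  rwa [e] at h2

private theorem GeoC_ann (h : LG Λ D Bad a) {ρ ε : ℝ} (hρ : 0 < ρ) (hρε : ρ < ε) (hε : ∀ β ∈ Bad, ∀ z : ℂ, z ≠ 0 → ‖z‖ < ε → β + z • a ∉ D) :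
    ∃ d : ℝ, 0 < d ∧ ∀ β ∈ Bad, ∀ z : ℂ, ρ / 4 ≤ ‖z‖ → ‖z‖ ≤ ρ → β + z • a ∈ Gd D d := by
  obtain ⟨S, hS, hSB⟩ := h.bad_fin
  have hK : IsCompact {z : ℂ | ρ / 4 ≤ ‖z‖ ∧ ‖z‖ ≤ ρ} := by
    have h1 : {z : ℂ | ρ / 4 ≤ ‖z‖ ∧ ‖z‖ ≤ ρ} = {z : ℂ | ρ / 4 ≤ ‖z‖} ∩ closedBall (0 : ℂ) ρ := by
      ext z
      simp only [Set.mem_inter_iff, mem_closedBall, dist_zero_right]
      rfl
    rw [h1]
    exact (isCompact_closedBall (0 : ℂ) ρ).inter_left (isClosed_le continuous_const continuous_norm)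
  obtain ⟨d, hd, h1⟩ := GeoC_fin hS (fun s d => (∃ β ∈ Bad, β - s ∈ Λ) → ∀ z : ℂ, ρ / 4 ≤ ‖z‖ → ‖z‖ ≤ ρ → s + z • a ∈ Gd D d)
    (fun s η η' hq _ hle hex z h2 h3 => gd_mono hle (hq hex z h2 h3)) (fun s _ => by
      by_cases hex : ∃ β ∈ Bad, β - s ∈ Λ
      · obtain ⟨β, hβ, hl⟩ := hex
        obtain ⟨d, hd, h2⟩ := GeoC_dist (a := a) h.D_closed hK s (fun z hz hD => by
          refine hε β hβ z ?_ (hz.2.trans_lt hρε) ?_
          · intro h0
            have h00 := hz.1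
            rw [h0, norm_zero] at h00
            linarith
          · have h3 := h.D_inv _ hD (β - s) hl
            have e : s + z • a + (β - s) = β + z • a := by abel
            rwa [e] at h3)
        exact ⟨d, hd, fun _ z h3 h4 => h2 z ⟨h3, h4⟩⟩
      · exact ⟨1, one_pos, fun hex' => absurd hex' hex⟩)
  refine ⟨d, hd, fun β hβ z h2 h3 => ?_⟩
  obtain ⟨s, hs, hl⟩ := hSB β hβ
  have h4 := GeoC_gd_add h d hl (h1 s hs ⟨β, hβ, hl⟩ z h2 h3)
  have e : s + z • a + (β - s) = β + z • a := by abel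
  rwa [e] at h4

/-- compactness modulo the lattice -/
private theorem GeoC_cpt (h : LG Λ D Bad a) (Q : Vd (k + 1) → ℝ → Prop) (hm : ∀ y d d', Q y d → 0 < d' → d' ≤ d → Q y d')
    (hinv : ∀ y d, ∀ l ∈ Λ, Q (y - l) d → Q y d) (hloc : ∀ y₀, ∃ d : ℝ, 0 < d ∧ ∀ᶠ y in 𝓝 y₀, Q y d) : ∃ d : ℝ, 0 < d ∧ ∀ y, Q y d := by
  obtain ⟨R, hR, hcov⟩ := h.lat.cpt
  have h1 : ∃ d : ℝ, 0 < d ∧ ∀ y ∈ closedBall (0 : Vd (k + 1)) R, Q y d := by
    refine (isCompact_closedBall (0 : Vd (k + 1)) R).induction_on (p := fun S : Set (Vd (k + 1)) => ∃ d : ℝ, 0 < d ∧ ∀ y ∈ S, Q y d) ?_ ?_ ?_ ?_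
    · exact ⟨1, one_pos, fun y hy => absurd hy (Set.notMem_empty y)⟩
    · rintro S T hST ⟨d, hd, hQ⟩
      exact ⟨d, hd, fun y hy => hQ y (hST hy)⟩
    · rintro S T ⟨d, hd, hQ⟩ ⟨d', hd', hQ'⟩
      refine ⟨min d d', lt_min hd hd', fun y hy => ?_⟩
      rcases hy with hy | hy
      · exact hm _ _ _ (hQ y hy) (lt_min hd hd') (min_le_left _ _)
      · exact hm _ _ _ (hQ' y hy) (lt_min hd hd') (min_le_right _ _)
    · intro y₀ _
      obtain ⟨d, hd, hQ⟩ := hloc y₀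
      exact ⟨{y | Q y d}, mem_nhdsWithin_of_mem_nhds hQ, d, hd, fun y hy => hy⟩
  obtain ⟨d, hd, hQ⟩ := h1
  refine ⟨d, hd, fun y => ?_⟩
  obtain ⟨l, hl, hlR⟩ := hcov y
  exact hinv y d l hl (hQ (y - l) (by rw [mem_closedBall, dist_zero_right]; exact hlR))

private theorem GeoC_near {δ r : ℝ} {y y₀ : Vd (k + 1)} {z : ℂ} (hy : y₀ + z • a ∈ Gd D δ) (h : ‖y - y₀‖ ≤ r) : y + z • a ∈ Gd D (δ - r) := by
  refine gd_near hy ?_
  have e : y + z • a - (y₀ + z • a) = y - y₀ := by abel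
  rwa [e]

private theorem GeoC_circ (h : LG Λ D Bad a) {ρ : ℝ} (hρ : 0 < ρ) :
    ∃ d : ℝ, 0 < d ∧ ∀ y : Vd (k + 1), ∃ r : ℝ, 0 < r ∧ r < ρ / 2 ∧ ∀ z : ℂ, ‖z‖ = r → y + z • a ∈ Gd D d := by
  refine GeoC_cpt h (fun y d => ∃ r : ℝ, 0 < r ∧ r < ρ / 2 ∧ ∀ z : ℂ, ‖z‖ = r → y + z • a ∈ Gd D d) ?_ ?_ ?_
  · rintro y d d' ⟨r, h1, h2, h3⟩ _ hle
    exact ⟨r, h1, h2, fun z hz => gd_mono hle (h3 z hz)⟩
  · rintro y d l hl ⟨r, h1, h2, h3⟩
    refine ⟨r, h1, h2, fun z hz => ?_⟩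
    have h4 := GeoC_gd_add h d hl (h3 z hz)
    have e : y - l + z • a + l = y + z • a := by abel
    rwa [e] at h4
  · intro y₀
    obtain ⟨r, h1, h2, d, hd, h3⟩ := GeoC_circle (a := a) h.D_closed h.iso y₀ (show (0 : ℝ) < ρ / 2 by linarith)
    refine ⟨d / 2, by linarith, ?_⟩
    filter_upwards [closedBall_mem_nhds y₀ (show 0 < d / 2 by linarith)] with y hy
    refine ⟨r, h1, h2, fun z hz => ?_⟩
    rw [mem_closedBall, dist_eq_norm] at hy
    have h4 := GeoC_near (h3 z hz) hy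
    have e : d - d / 2 = d / 2 := by ring
    rwa [e] at h4

private theorem GeoC_circC (h : LG Λ D Bad a) {ρ : ℝ} (hρ : 0 < ρ) (hsep : ∀ β ∈ Bad, ∀ β' ∈ Bad, β ≠ β' → 8 * ρ ≤ ‖β - β'‖) :
    ∃ d : ℝ, 0 < d ∧ ∀ y : Vd (k + 1), ∃ r : ℝ, 0 < r ∧ r ≤ 2 * ρ ∧ ∀ z : ℂ, ‖z‖ = r → y + z • a ∈ Gd D d ∧ ∀ β ∈ Bad, 3 / 4 * ρ ≤ ‖y + z • a - β‖ := by
  refine GeoC_cpt h (fun y d => ∃ r : ℝ, 0 < r ∧ r ≤ 2 * ρ ∧ ∀ z : ℂ, ‖z‖ = r → y + z • a ∈ Gd D d ∧ ∀ β ∈ Bad, 3 / 4 * ρ ≤ ‖y + z • a - β‖) ?_ ?_ ?_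
  · rintro y d d' ⟨r, h1, h2, h3⟩ _ hle
    exact ⟨r, h1, h2, fun z hz => ⟨gd_mono hle (h3 z hz).1, (h3 z hz).2⟩⟩
  · rintro y d l hl ⟨r, h1, h2, h3⟩
    refine ⟨r, h1, h2, fun z hz => ⟨?_, fun β hβ => ?_⟩⟩
    · have h4 := GeoC_gd_add h d hl (h3 z hz).1
      have e : y - l + z • a + l = y + z • a := by abel
      rwa [e] at h4
    · have h4 := (h3 z hz).2 _ (h.bad_inv β hβ (-l) (Λ.neg_mem hl))
      have e : y - l + z • a - (β + -l) = y + z • a - β := by abel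
      rwa [e] at h4
  · intro y₀
    by_cases hex : ∃ β₀ ∈ Bad, ‖y₀ - β₀‖ < ρ
    · obtain ⟨β₀, hβ₀, hlt⟩ := hex
      obtain ⟨r, h1, h2, d, hd, h3⟩ := GeoC_circle (a := a) h.D_closed h.iso y₀ (show 7 / 4 * ρ < 2 * ρ by linarith)
      set t : ℝ := min (d / 2) (min (r - 7 / 4 * ρ) ρ) with ht
      have htp : 0 < t := lt_min (by linarith) (lt_min (by linarith) hρ)
      have ht1 : t ≤ d / 2 := min_le_left _ _
      have ht2 : t ≤ r - 7 / 4 * ρ := (min_le_right _ _).trans (min_le_left _ _)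
      have ht3 : t ≤ ρ := (min_le_right _ _).trans (min_le_right _ _)
      refine ⟨d / 2, by linarith, ?_⟩
      filter_upwards [closedBall_mem_nhds y₀ htp] with y hy
      rw [mem_closedBall, dist_eq_norm] at hy
      refine ⟨r, by linarith, h2.le, fun z hz => ⟨?_, fun β hβ => ?_⟩⟩
      · have h4 := GeoC_near (h3 z hz) (hy.trans ht1)
        have e : d - d / 2 = d / 2 := by ring
        rwa [e] at h4
      · have hza : ‖z • a‖ = r := by rw [GeoC_smul h.norm, hz]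
        by_cases hβe : β = β₀
        · rw [hβe]
          have e : z • a = (y + z • a - β₀) - (y - y₀) - (y₀ - β₀) := by abel
          have h5 : ‖z • a‖ ≤ ‖y + z • a - β₀‖ + ‖y - y₀‖ + ‖y₀ - β₀‖ := by
            conv_lhs => rw [e]
            exact (norm_sub_le _ _).trans (add_le_add (norm_sub_le _ _) le_rfl)
          linarith
        · have h5 := hsep β hβ β₀ hβ₀ hβe
          have e : β - β₀ = (y - y₀) + z • a - (y + z • a - β) + (y₀ - β₀) := by abel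
          have h6 : ‖β - β₀‖ ≤ ‖y - y₀‖ + ‖z • a‖ + ‖y + z • a - β‖ + ‖y₀ - β₀‖ := by
            conv_lhs => rw [e]
            refine (norm_add_le _ _).trans (add_le_add ((norm_sub_le _ _).trans (add_le_add (norm_add_le _ _) le_rfl)) le_rfl)
          linarith
    · push Not at hex
      obtain ⟨r, h1, h2, d, hd, h3⟩ := GeoC_circle (a := a) h.D_closed h.iso y₀ (show (0 : ℝ) < ρ / 8 by linarith)
      set t : ℝ := min (d / 2) (ρ / 8) with ht
      have htp : 0 < t := lt_min (by linarith) (by linarith)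
      have ht1 : t ≤ d / 2 := min_le_left _ _
      have ht2 : t ≤ ρ / 8 := min_le_right _ _
      refine ⟨d / 2, by linarith, ?_⟩
      filter_upwards [closedBall_mem_nhds y₀ htp] with y hy
      rw [mem_closedBall, dist_eq_norm] at hy
      refine ⟨r, h1, by linarith, fun z hz => ⟨?_, fun β hβ => ?_⟩⟩
      · have h4 := GeoC_near (h3 z hz) (hy.trans ht1)
        have e : d - d / 2 = d / 2 := by ring
        rwa [e] at h4
      · have hza : ‖z • a‖ = r := by rw [GeoC_smul h.norm, hz]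
        have h5 := hex β hβ
        have e : y₀ - β = (y + z • a - β) - (y - y₀) - z • a := by abel
        have h6 : ‖y₀ - β‖ ≤ ‖y + z • a - β‖ + ‖y - y₀‖ + ‖z • a‖ := by
          conv_lhs => rw [e]
          exact (norm_sub_le _ _).trans (add_le_add (norm_sub_le _ _) le_rfl)
        linarith

private theorem GeoC_strip (h : LG Λ D Bad a) (y : Vd (k + 1)) :
    ∃ (ω : ℂ) (M : ℝ), ‖ω‖ = 1 ∧ ∀ z : ℂ, y + z • a ∈ Bad → |((starRingEnd ℂ) ω * z).im| ≤ M := by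
  obtain ⟨S, hS, hSB⟩ := h.bad_fin
  obtain ⟨ω, hω, hr⟩ := h.rank
  have h1 : ∃ M : ℝ, ∀ s ∈ S, ∀ z : ℂ, y + z • a - s ∈ Λ → |((starRingEnd ℂ) ω * z).im| ≤ M := by
    clear hSB
    induction S, hS using Set.Finite.induction_on with
    | empty => exact ⟨0, fun s hs => absurd hs (Set.notMem_empty s)⟩
    | @insert c T _ _ ih =>
      obtain ⟨M, hM⟩ := ih
      by_cases hex : ∃ z : ℂ, y + z • a - c ∈ Λ
      · obtain ⟨z₀, hz₀⟩ := hex
        refine ⟨max M |((starRingEnd ℂ) ω * z₀).im|, fun s hs z hz => ?_⟩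
        rcases hs with rfl | hs
        · have h2 : (z - z₀) • a ∈ Λ := by
            have h3 := Λ.sub_mem hz hz₀
            have e : y + z • a - s - (y + z₀ • a - s) = (z - z₀) • a := by rw [sub_smul]; abel
            rwa [e] at h3
          have h3 := hr _ h2
          rw [mul_sub, Complex.sub_im, sub_eq_zero] at h3
          rw [h3]
          exact le_max_right _ _
        · exact (hM s hs z hz).trans (le_max_left _ _)
      · push Not at hex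
        refine ⟨M, fun s hs z hz => ?_⟩
        rcases hs with rfl | hs
        · exact absurd hz (hex z)
        · exact hM s hs z hz
  obtain ⟨M, hM⟩ := h1
  refine ⟨ω, M, hω, fun z hz => ?_⟩
  obtain ⟨s, hs, hl⟩ := hSB _ hz
  exact hM s hs z hl

theorem exists_lc (h : LG Λ D Bad a) : ∃ ρ₀ : ℝ, 0 < ρ₀ ∧ ∀ ρ : ℝ, 0 < ρ → ρ ≤ ρ₀ → ∃ δ₀ : ℝ, 0 < δ₀ ∧ ∀ δ : ℝ, 0 < δ → δ ≤ δ₀ → LC D Bad a ρ δ := by
  obtain ⟨η, hη, hsep⟩ := GeoC_sep h
  obtain ⟨ε, hε, hpun⟩ := GeoC_punct h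
  refine ⟨min (1 / 4) (min (η / 8) (ε / 2)), lt_min (by norm_num) (lt_min (by linarith) (by linarith)), fun ρ hρ hρ₀ => ?_⟩
  have hρ1 : ρ ≤ 1 / 4 := hρ₀.trans (min_le_left _ _)
  have hρ2 : ρ ≤ η / 8 := hρ₀.trans ((min_le_right _ _).trans (min_le_left _ _))
  have hρ3 : ρ ≤ ε / 2 := hρ₀.trans ((min_le_right _ _).trans (min_le_right _ _))
  have hsep' : ∀ β ∈ Bad, ∀ β' ∈ Bad, β ≠ β' → 8 * ρ ≤ ‖β - β'‖ := fun β hβ β' hβ' hne => by
    have := hsep β hβ β' hβ' hne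
    linarith
  obtain ⟨d₁, hd₁, hann⟩ := GeoC_ann h hρ (show ρ < ε by linarith) hpun
  obtain ⟨d₂, hd₂, hcirc⟩ := GeoC_circ h hρ
  obtain ⟨d₃, hd₃, hcircC⟩ := GeoC_circC h hρ hsep'
  refine ⟨min (ρ / 8) (min (d₁ / 2) (min (d₂ / 2) (d₃ / 4))), lt_min (by linarith) (lt_min (by linarith) (lt_min (by linarith) (by linarith))),
    fun δ hδ hδ₀ => ?_⟩
  have hδ1 : δ ≤ ρ / 8 := hδ₀.trans (min_le_left _ _)
  have hδ2 : δ ≤ d₁ / 2 := hδ₀.trans ((min_le_right _ _).trans (min_le_left _ _))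
  have hδ3 : δ ≤ d₂ / 2 := hδ₀.trans ((min_le_right _ _).trans ((min_le_right _ _).trans (min_le_left _ _)))
  have hδ4 : δ ≤ d₃ / 4 := hδ₀.trans ((min_le_right _ _).trans ((min_le_right _ _).trans (min_le_right _ _)))
  exact
    { norm := h.norm
      D_closed := h.D_closed
      bad_sub := h.bad_sub
      ρ_pos := hρ
      ρ_le := hρ1
      δ_pos := hδ
      δ_le := by linarith
      sep := hsep'
      iso := h.iso
      ann := fun β hβ z h1 h2 => gd_mono (by linarith) (hann β hβ z h1 h2)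
      circ := fun y => by
        obtain ⟨r, h1, h2, h3⟩ := hcirc y
        exact ⟨r, h1, h2, fun z hz => gd_mono (by linarith) (h3 z hz)⟩
      circC := fun y => by
        obtain ⟨r, h1, h2, h3⟩ := hcircC y
        exact ⟨r, h1, h2, fun z hz => ⟨gd_mono (by linarith) (h3 z hz).1, (h3 z hz).2⟩⟩
      strip := GeoC_strip h }

/-- thick circles in the core, for all base points near `y` -/
theorem LC.thick {ρ δ : ℝ} (h : LC D Bad a ρ δ) (y : Vd (k + 1)) : ∃ r : ℝ, 0 < r ∧ r ≤ 2 * ρ ∧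
    ∀ y' : Vd (k + 1), ‖y' - y‖ ≤ δ → ∀ z : ℂ, |‖z‖ - r| ≤ δ → y' + z • a ∈ Co D Bad δ ρ := by
  obtain ⟨r, h1, h2, h3⟩ := h.circC y
  refine ⟨r, h1, h2, fun y' hy' z hz => ?_⟩
  have h4 : ∃ z' : ℂ, ‖z'‖ = r ∧ ‖z - z'‖ ≤ δ := by
    by_cases hz0 : z = 0
    · refine ⟨(r : ℂ), ?_, ?_⟩
      · rw [Complex.norm_real, Real.norm_of_nonneg h1.le]
      · rw [hz0, norm_zero, zero_sub, abs_neg, abs_of_pos h1] at hz
        rw [hz0, zero_sub, norm_neg, Complex.norm_real, Real.norm_of_nonneg h1.le]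
        exact hz
    · have hn : ‖z‖ ≠ 0 := norm_ne_zero_iff.2 hz0
      refine ⟨((r / ‖z‖ : ℝ) : ℂ) * z, ?_, ?_⟩
      · rw [norm_mul, Complex.norm_real, Real.norm_of_nonneg (by positivity)]
        field_simp
      · have e : z - ((r / ‖z‖ : ℝ) : ℂ) * z = (((1 - r / ‖z‖ : ℝ)) : ℂ) * z := by
          push_cast
          ring
        rw [e, norm_mul, Complex.norm_real, Real.norm_eq_abs]
        have e2 : |1 - r / ‖z‖| * ‖z‖ = |‖z‖ - r| := by
          have h5 : ‖z‖ - r = (1 - r / ‖z‖) * ‖z‖ := by field_simp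
          rw [h5, abs_mul, abs_of_nonneg (norm_nonneg z)]
        rw [e2]
        exact hz
  obtain ⟨z', hz', hzz⟩ := h4
  obtain ⟨h5, h6⟩ := h3 z' hz'
  have h7 : ‖y' + z • a - (y + z' • a)‖ ≤ 2 * δ := by
    have e : y' + z • a - (y + z' • a) = (y' - y) + (z - z') • a := by rw [sub_smul]; abel
    rw [e]
    refine (norm_add_le _ _).trans ?_
    rw [GeoC_smul h.norm]
    linarith
  refine ⟨?_, fun β hβ => ?_⟩
  · have h8 := gd_near h5 h7
    have e : 4 * δ - 2 * δ = 2 * δ := by ring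
    rwa [e] at h8
  · have h8 := h6 β hβ
    have e : y + z' • a - β = (y' + z • a - β) - (y' + z • a - (y + z' • a)) := by abel
    have h9 : ‖y + z' • a - β‖ ≤ ‖y' + z • a - β‖ + ‖y' + z • a - (y + z' • a)‖ := by
      conv_lhs => rw [e]
      exact norm_sub_le _ _
    have := h.δ_le
    linarith

end Pool.Agent.G3.A
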