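import Pool.Agent.H94.G4T.M07
import Pool.Agent.H94.G4T.M10
import Pool.Agent.H94.G4T.M16
import Pool.Agent.H94.G4T.M20

/-!
# G3 A JB: the bound for the integral

By translation (`α.shift`, `II_shift`, `Cap.add`, `Lat.cpt`) it suffices to bound `II β ε y m m'` for `‖y‖ ≤ R` and all forms `β` with `|β| ≤ M` on the fibre over `y` (for `‖v i‖ ≤ ‖x‖`):
`‖II β ε y m m'‖ ≤ C M dist m m'`, `C` independent of `β`.  Near `(y₀, m₀)` one chart `χ` with `Cap … (3 ε)`: `II = (A p' - A p) / ρ ^ (k + 1)`, `‖A p' - A p‖ ≤ ‖p' - p‖ sup ‖tc‖` along the segment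
(in the fibre over `y`), `‖tc‖ ≤ C_χ M` (`det` with a diagonal matrix: the tangent vectors `fderiv χ.σ p (Pi.single i 1)` are at most `C ‖χ.σ p‖`), `‖p' - p‖ ≤ C_χ dist m m'` (`χ.q` is Lipschitz and
homogeneous of degree `0`).  Compactness of `{(y, m) | y ∈ Gd D δ, ‖y‖ ≤ R, m ∈ Fb y}` (`fb_lim`, sequences).
-/

set_option autoImplicit false

open Topology Filter Metric

namespace Pool.Agent.G3.A

open Pool.Agent.H36.BP (EN fs wd)
open Pool.Agent.H14.PP (IsCone CurveAt Tan)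
open Pool.Agent.H62.EF (MN pr)
open Pool.Agent.AD (Vd Chart Charts IsGerm)
open Pool.Agent.TG
open Pool.Agent.G3.C (Gc)

variable {N k : ℕ} {X : Set (EN N)} {Λ : AddSubgroup (Vd (k + 1))} {u : EN N → Vd (k + 1)} {D B Bad : Set (Vd (k + 1))} {a : Vd (k + 1)}

private theorem jb_sub {d : ℕ} {p : Vd d} (hp : p ∈ closedBall (0 : Vd d) 1) : p ∈ ball (0 : Vd d) 2 :=
  closedBall_subset_ball (by norm_num) hp

/-- the product of a matrix and the vector `x₀` -/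
private noncomputable def jb_mul (x₀ : EN N) : MN N →ₗ[ℂ] EN N where
  toFun y := WithLp.toLp 2 fun i => ∑ j, y (i, j) * x₀ j
  map_add' y z := by
    ext i
    simp [add_mul, Finset.sum_add_distrib]
  map_smul' c y := by
    ext i
    simp [Finset.mul_sum, mul_assoc]

private theorem jb_mul_pr (x₀ x : EN N) :
    jb_mul x₀ (pr x) = (inner ℂ x x₀ / ((‖x‖ ^ 2 : ℝ) : ℂ)) • x := by
  ext i
  simp only [jb_mul, pr, LinearMap.coe_mk, AddHom.coe_mk, PiLp.smul_apply, smul_eq_mul]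
  rw [PiLp.inner_apply, Finset.sum_div, Finset.sum_mul]
  refine Finset.sum_congr rfl fun j _ => ?_
  simp only [RCLike.inner_apply]
  ring

private theorem jb_mul_self {x₀ : EN N} (hx₀ : x₀ ≠ 0) : jb_mul x₀ (pr x₀) = x₀ := by
  rw [jb_mul_pr]
  have h1 : inner ℂ x₀ x₀ = ((‖x₀‖ ^ 2 : ℝ) : ℂ) := by
    rw [inner_self_eq_norm_sq_to_K]
    push_cast
    rfl
  rw [h1, div_self, one_smul]
  have : ‖x₀‖ ≠ 0 := norm_ne_zero_iff.2 hx₀
  exact_mod_cast pow_ne_zero 2 this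

private theorem jb_local {d : ℕ} (hX : IsCone X) (χ : Chart d X) {a : Vd d}
    (ha : a ∈ closedBall (0 : Vd d) 1) :
    ∃ K : ℝ, ∀ᶠ p : Vd d × Vd d in 𝓝 (a, a), p.1 ∈ ball (0 : Vd d) 2 → p.2 ∈ ball (0 : Vd d) 2 →
      ‖p.1 - p.2‖ ≤ K * dist (pr (χ.σ p.1)) (pr (χ.σ p.2)) := by
  have haB := jb_sub ha
  have hx₀ : χ.σ a ≠ 0 := ne_zero hX (χ.σ_mem a haB).1
  set x₀ := χ.σ a with hx₀def
  let L : MN N →L[ℂ] EN N := LinearMap.toContinuousLinearMap (jb_mul x₀)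
  have hL : ∀ y, L y = jb_mul x₀ y := fun y => rfl
  have hLx : L (pr x₀) = x₀ := by rw [hL, jb_mul_self hx₀]
  have hQan : AnalyticAt ℂ (fun y => χ.q (L y)) (pr x₀) := by
    have h1 : AnalyticAt ℂ χ.q (L (pr x₀)) := by
      rw [hLx]
      exact χ.q_an _ (χ.σ_mem a haB).2.1
    exact h1.comp (L.analyticAt _)
  obtain ⟨K, s, hs, hK⟩ := hQan.hasStrictFDerivAt.exists_lipschitzOnWith
  have hcpr : ContinuousAt (fun p => pr (χ.σ p)) a :=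
    ContinuousAt.comp (g := pr) (Pool.Agent.H62.EF.continuousAt_pr hx₀) (χ.σ_an a haB).continuousAt
  have h1 : ∀ᶠ p in 𝓝 a, pr (χ.σ p) ∈ s := hcpr hs
  have h2 : ∀ᶠ p in 𝓝 a, L (pr (χ.σ p)) ≠ 0 := by
    have hc : ContinuousAt (fun p => L (pr (χ.σ p))) a :=
      ContinuousAt.comp (g := L) L.continuous.continuousAt hcpr
    apply hc.eventually_ne
    rw [← hx₀def, hLx]
    exact hx₀
  have h3 : ∀ p, p ∈ ball (0 : Vd d) 2 → L (pr (χ.σ p)) ≠ 0 → χ.q (L (pr (χ.σ p))) = p := by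
    intro p hp hne
    rw [hL, jb_mul_pr] at hne ⊢
    have hc : inner ℂ (χ.σ p) x₀ / ((‖χ.σ p‖ ^ 2 : ℝ) : ℂ) ≠ 0 := by
      intro h0
      rw [h0, zero_smul] at hne
      exact hne rfl
    rw [χ.q_smul _ (χ.σ_mem p hp).2.1 _ hc]
    exact (χ.σ_mem p hp).2.2
  refine ⟨K, ?_⟩
  have h12 := h1.and h2
  rw [nhds_prod_eq]
  filter_upwards [h12.prod_mk h12] with p hp hp1 hp2
  have h4 := hK.dist_le_mul _ hp.1.1 _ hp.2.1
  simp only [h3 p.1 hp1 hp.1.2, h3 p.2 hp2 hp.2.2] at h4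
  rw [dist_eq_norm p.1 p.2] at h4
  exact h4

private theorem jb_lower {d : ℕ} (hX : IsCone X) (χ : Chart d X) : ∃ C : ℝ,
    ∀ p ∈ closedBall (0 : Vd d) 1, ∀ p' ∈ closedBall (0 : Vd d) 1,
      ‖p - p'‖ ≤ C * dist (pr (χ.σ p)) (pr (χ.σ p')) := by
  by_contra hcon
  push Not at hcon
  choose p hp p' hp' hlt using fun n : ℕ => hcon n
  have hcomp : IsCompact (closedBall (0 : Vd d) 1 ×ˢ closedBall (0 : Vd d) 1) :=
    (isCompact_closedBall _ _).prod (isCompact_closedBall _ _)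
  obtain ⟨⟨a, b⟩, ⟨ha, hb⟩, φ, hφ, hlim⟩ := hcomp.tendsto_subseq
    (x := fun n => (p n, p' n)) (fun n => ⟨hp n, hp' n⟩)
  have hlim' : Tendsto (fun n => (p (φ n), p' (φ n))) atTop (𝓝 (a, b)) := hlim
  have hla : Tendsto (fun n => p (φ n)) atTop (𝓝 a) :=
    (continuous_fst.tendsto (a, b)).comp hlim'
  have hlb : Tendsto (fun n => p' (φ n)) atTop (𝓝 b) :=
    (continuous_snd.tendsto (a, b)).comp hlim'
  have hφt : Tendsto (fun n => ((φ n : ℕ) : ℝ)) atTop atTop :=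
    tendsto_natCast_atTop_atTop.comp hφ.tendsto_atTop
  have hne : ∀ c ∈ closedBall (0 : Vd d) 1, χ.σ c ≠ 0 := fun c hc => ne_zero hX (χ.σ_mem c (jb_sub hc)).1
  have hca : ∀ c ∈ closedBall (0 : Vd d) 1, ContinuousAt (fun p => pr (χ.σ p)) c := fun c hc =>
    ContinuousAt.comp (g := pr) (Pool.Agent.H62.EF.continuousAt_pr (hne c hc))
      (χ.σ_an c (jb_sub hc)).continuousAt
  have hab : a = b := by
    have hd : Tendsto (fun n => dist (pr (χ.σ (p (φ n)))) (pr (χ.σ (p' (φ n))))) atTop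
        (𝓝 (dist (pr (χ.σ a)) (pr (χ.σ b)))) :=
      ((hca a ha).tendsto.comp hla).dist ((hca b hb).tendsto.comp hlb)
    have hd0 : Tendsto (fun n => dist (pr (χ.σ (p (φ n)))) (pr (χ.σ (p' (φ n))))) atTop (𝓝 0) := by
      have ht : Tendsto (fun n => 2 * ((φ n : ℕ) : ℝ)⁻¹) atTop (𝓝 0) := by
        have := (tendsto_inv_atTop_zero.comp hφt).const_mul (2 : ℝ)
        rw [mul_zero] at this
        exact this
      refine squeeze_zero' (Eventually.of_forall fun n => dist_nonneg) ?_ ht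
      filter_upwards [hφt.eventually_gt_atTop 0] with n hn
      have h1 := hlt (φ n)
      have h2 : ‖p (φ n) - p' (φ n)‖ ≤ 2 := by
        have h3 := mem_closedBall_zero_iff.1 (hp (φ n))
        have h4 := mem_closedBall_zero_iff.1 (hp' (φ n))
        calc ‖p (φ n) - p' (φ n)‖ ≤ ‖p (φ n)‖ + ‖p' (φ n)‖ := norm_sub_le _ _
          _ ≤ 1 + 1 := add_le_add h3 h4
          _ = 2 := by norm_num
      rw [← div_eq_mul_inv, le_div_iff₀ hn, mul_comm]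
      exact (h1.trans_le h2).le
    have h0 : dist (pr (χ.σ a)) (pr (χ.σ b)) = 0 := tendsto_nhds_unique hd hd0
    obtain ⟨c, hc, hcab⟩ := (Pool.Agent.H62.EF.pr_eq_iff (hne a ha) (hne b hb)).1 (dist_eq_zero.1 h0)
    have h1 := (χ.σ_mem a (jb_sub ha)).2.2
    have h2 := (χ.σ_mem b (jb_sub hb)).2
    rw [← h1, hcab, χ.q_smul _ h2.1 c hc, h2.2]
  subst hab
  obtain ⟨K, hK⟩ := jb_local hX χ ha
  obtain ⟨n, hn, hnK⟩ := ((hlim'.eventually hK).and (hφt.eventually_ge_atTop K)).exists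
  have h1 := hn (jb_sub (hp _)) (jb_sub (hp' _))
  have h2 := hlt (φ n)
  have h3 : K * dist (pr (χ.σ (p (φ n)))) (pr (χ.σ (p' (φ n)))) ≤
      (φ n : ℝ) * dist (pr (χ.σ (p (φ n)))) (pr (χ.σ (p' (φ n)))) :=
    mul_le_mul_of_nonneg_right hnK dist_nonneg
  exact absurd (h1.trans h3) (not_le.2 h2)

/-- the form `α` is at most `M` on the fibre over `y` -/
private def jb_le (α : VForm X Λ u) (y : Vd (k + 1)) (M : ℝ) : Prop :=
  ∀ x ∈ X, u x - y ∈ Λ → ∀ v : Fin (k + 2) → EN N, (∀ i, Tan X x (v i)) → (∀ i, ‖v i‖ ≤ ‖x‖) → ‖α.toFun y x v‖ ≤ M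

/-- the bound for the coefficient in a chart -/
private theorem jb_tc (hX : IsCone X) (χ : Chart (k + 2) X) : ∃ C : ℝ, 0 ≤ C ∧ ∀ (c : Vd (k + 1)) (ρ : ℝ), Str Λ u χ c ρ →
    ∀ (α : VForm X Λ u) (M : ℝ), ∀ p ∈ closedBall (0 : Vd (k + 2)) 1, jb_le α (ms c ρ p) M → ‖tc α χ (ms c ρ) p‖ ≤ C * M := by
  have hne : ∀ c ∈ closedBall (0 : Vd (k + 2)) 1, χ.σ c ≠ 0 := fun c hc => ne_zero hX (χ.σ_mem c (jb_sub hc)).1
  have hcont : ContinuousOn (fun p => ‖fderiv ℂ χ.σ p‖ / ‖χ.σ p‖) (closedBall (0 : Vd (k + 2)) 1) := by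
    intro p hp
    have h1 : ContinuousAt χ.σ p := (χ.σ_an p (jb_sub hp)).continuousAt
    have h2 : ContinuousAt (fderiv ℂ χ.σ) p := (χ.σ_an p (jb_sub hp)).fderiv.continuousAt
    exact (h2.norm.div h1.norm (norm_ne_zero_iff.mpr (hne p hp))).continuousWithinAt
  obtain ⟨K, hK⟩ := (isCompact_closedBall (0 : Vd (k + 2)) 1).exists_bound_of_continuousOn hcont
  set t : ℝ := max K 1 with ht
  have ht1 : 1 ≤ t := le_max_right _ _
  have ht0 : 0 < t := by linarith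
  have htC : (t : ℂ) ≠ 0 := by exact_mod_cast ht0.ne'
  refine ⟨t ^ (k + 2), by positivity, fun c ρ hst α M p hp hM => ?_⟩
  have hpB := jb_sub hp
  have hσ := χ.σ_mem p hpB
  have hu := hst.lift p hpB
  set w : Fin (k + 2) → EN N := fun i => fderiv ℂ χ.σ p (Pi.single i 1) with hw
  have hwn : ∀ i, ‖w i‖ ≤ t * ‖χ.σ p‖ := by
    intro i
    have h1 : ‖w i‖ ≤ ‖fderiv ℂ χ.σ p‖ := by
      refine (ContinuousLinearMap.le_opNorm _ _).trans ?_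
      have h2 : ‖(Pi.single i (1 : ℂ) : Vd (k + 2))‖ ≤ 1 := by
        rw [pi_norm_le_iff_of_nonneg zero_le_one]
        intro j
        rw [Pi.single_apply]
        split_ifs
        · simp
        · simp
      calc ‖fderiv ℂ χ.σ p‖ * ‖(Pi.single i (1 : ℂ) : Vd (k + 2))‖ ≤ ‖fderiv ℂ χ.σ p‖ * 1 :=
            mul_le_mul_of_nonneg_left h2 (norm_nonneg _)
        _ = ‖fderiv ℂ χ.σ p‖ := mul_one _
    have h2 := hK p hp
    rw [Real.norm_of_nonneg (by positivity)] at h2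
    have h3 : 0 < ‖χ.σ p‖ := norm_pos_iff.mpr (hne p hp)
    rw [div_le_iff₀ h3] at h2
    refine h1.trans (h2.trans ?_)
    exact mul_le_mul_of_nonneg_right (le_max_left _ _) h3.le
  have hvT : ∀ i, Tan X (χ.σ p) ((t : ℂ)⁻¹ • w i) := fun i => by
    have h1 : (t : ℂ)⁻¹ • w i = fderiv ℂ χ.σ p ((t : ℂ)⁻¹ • (Pi.single i 1 : Vd (k + 2))) := by
      rw [map_smul]
    rw [h1]
    exact tan_sigma χ hpB _
  have h1 := α.det (ms c ρ p) (χ.σ p) hσ.1 hu (fun i => (t : ℂ)⁻¹ • w i) hvT ((t : ℂ) • (1 : Matrix (Fin (k + 2)) (Fin (k + 2)) ℂ))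
  have h2 : (fun i => ∑ j, ((t : ℂ) • (1 : Matrix (Fin (k + 2)) (Fin (k + 2)) ℂ)) i j • ((t : ℂ)⁻¹ • w j)) = w := by
    funext i
    rw [Finset.sum_eq_single i]
    · rw [Matrix.smul_apply, Matrix.one_apply_eq, smul_eq_mul, mul_one, smul_smul, mul_inv_cancel₀ htC, one_smul]
    · intro j _ hj
      rw [Matrix.smul_apply, Matrix.one_apply_ne (Ne.symm hj), smul_zero, zero_smul]
    · intro h
      exact absurd (Finset.mem_univ i) h
  rw [h2, Matrix.det_smul, Matrix.det_one, mul_one, Fintype.card_fin] at h1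
  have h3 : tc α χ (ms c ρ) p = α.toFun (ms c ρ p) (χ.σ p) w := rfl
  rw [h3, h1, norm_mul, norm_pow, Complex.norm_real, Real.norm_of_nonneg ht0.le]
  refine mul_le_mul_of_nonneg_left ?_ (by positivity)
  refine hM (χ.σ p) hσ.1 hu _ hvT fun i => ?_
  rw [norm_smul, norm_inv, Complex.norm_real, Real.norm_of_nonneg ht0.le, inv_mul_le_iff₀ ht0]
  exact hwn i

/-- the bound along a fibre in a chart -/
private theorem jb_seg {χ : Chart (k + 2) X} {c : Vd (k + 1)} {ρ : ℝ} {α : VForm X Λ u} {A : Vd (k + 2) → ℂ} (hA : IsPrim α χ (ms c ρ) A)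
    (hρ : (ρ : ℂ) ≠ 0) {y : Vd (k + 1)} {p p' : Vd (k + 2)} (hp : p ∈ closedBall (0 : Vd (k + 2)) 1) (hp' : p' ∈ closedBall (0 : Vd (k + 2)) 1)
    (h : ms c ρ p = y) (h' : ms c ρ p' = y) {C : ℝ} (hC : ∀ q ∈ closedBall (0 : Vd (k + 2)) 1, ms c ρ q = y → ‖tc α χ (ms c ρ) q‖ ≤ C) :
    ‖A p' - A p‖ ≤ C * ‖p' - p‖ := by
  have hd : tl (p' - p) = 0 := by
    have h1 : c + (ρ : ℂ) • tl p' = c + (ρ : ℂ) • tl p := h'.trans h.symm
    have h2 := smul_right_injective _ hρ (add_left_cancel h1)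
    rw [tl_sub]
    exact sub_eq_zero.2 h2
  set P : ℝ → Vd (k + 2) := fun θ => p + (θ : ℂ) • (p' - p) with hP
  have hPm : ∀ θ ∈ Set.Icc (0 : ℝ) 1, P θ ∈ closedBall (0 : Vd (k + 2)) 1 := by
    intro θ hθ
    have hc : Convex ℝ (closedBall (0 : Vd (k + 2)) 1) := convex_closedBall _ _
    exact hc.add_smul_sub_mem hp hp' hθ
  have hPs : ∀ θ : ℝ, ms c ρ (P θ) = y := by
    intro θ
    rw [← h]
    show c + (ρ : ℂ) • tl (p + (θ : ℂ) • (p' - p)) = c + (ρ : ℂ) • tl p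
    rw [tl_add, tl_smul, hd, smul_zero, add_zero]
  have hder : ∀ θ ∈ Set.Icc (0 : ℝ) 1, HasDerivWithinAt (fun θ : ℝ => A (P θ)) ((p' - p) 0 * tc α χ (ms c ρ) (P θ)) (Set.Icc 0 1) θ := by
    intro θ hθ
    have hb := jb_sub (hPm θ hθ)
    have h3 : HasDerivAt (fun t : ℂ => p + t • (p' - p)) (p' - p) (θ : ℂ) := by
      have h3 := ((hasDerivAt_id (θ : ℂ)).smul_const (p' - p)).const_add p
      rw [one_smul] at h3
      exact h3
    have h4 : HasDerivAt (fun t : ℂ => A (p + t • (p' - p))) (fderiv ℂ A (P θ) (p' - p)) (θ : ℂ) :=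
      (hA.an _ hb).differentiableAt.hasFDerivAt.comp_hasDerivAt (θ : ℂ) h3
    have h5 := h4.comp_ofReal
    have h6 : fderiv ℂ A (P θ) (p' - p) = (p' - p) 0 * tc α χ (ms c ρ) (P θ) := by
      rw [lin_vert _ hd, hA.der _ hb, smul_eq_mul]
    rw [h6] at h5
    exact h5.hasDerivWithinAt
  have hbd : ∀ θ ∈ Set.Ico (0 : ℝ) 1, ‖(p' - p) 0 * tc α χ (ms c ρ) (P θ)‖ ≤ C * ‖p' - p‖ := by
    intro θ hθ
    rw [norm_mul, mul_comm]
    have h1 := hC _ (hPm θ ⟨hθ.1, hθ.2.le⟩) (hPs θ)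
    have h2 : ‖(p' - p) 0‖ ≤ ‖p' - p‖ := norm_le_pi_norm _ _
    exact mul_le_mul h1 h2 (norm_nonneg _) ((norm_nonneg _).trans h1)
  have h1 := norm_image_sub_le_of_norm_deriv_le_segment_01' hder hbd
  have h2 : P 1 = p' := by
    rw [hP]
    simp
  have h3 : P 0 = p := by
    rw [hP]
    simp
  rw [h2, h3] at h1
  exact h1

private theorem jb_bdd (G : Geo X Λ u D B) {δ ε ε₀ : ℝ} (hc : Cst X Λ u D δ ε ε₀) (R : ℝ) : ∃ C : ℝ, 0 < C ∧
    ∀ y ∈ Gd D δ, ‖y‖ ≤ R → ∀ m ∈ Fb X Λ u y, ∀ m' ∈ Fb X Λ u y, dist m m' ≤ ε₀ → ∀ (α : VForm X Λ u) (M : ℝ), 0 ≤ M → jb_le α y M →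
      ‖II α ε y m m'‖ ≤ C * M * dist m m' := by
  by_contra hcon
  push Not at hcon
  choose y hy hyR m hm m' hm' hd α M hM0 hM hlt using fun n : ℕ => hcon ((n : ℝ) + 1) (by positivity)
  set 𝒰 : Ultrafilter ℕ := hyperfilter ℕ with h𝒰
  obtain ⟨y₀, -, hy₀⟩ := (isCompact_closedBall (0 : Vd (k + 1)) R).ultrafilter_le_nhds (𝒰.map y) (by
    rw [Ultrafilter.coe_map, le_principal_iff, mem_map]
    refine univ_mem' fun n => ?_
    simpa using hyR n)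
  have hyt : Tendsto y 𝒰 (𝓝 y₀) := hy₀
  have hy₀G : y₀ ∈ Gd D δ := (gd_closed D δ).mem_of_tendsto hyt (Eventually.of_forall hy)
  obtain ⟨m₀, -, hm₀⟩ := (Pool.Agent.H62.EF.isCompact_pr G.cone).ultrafilter_le_nhds (𝒰.map m) (by
    rw [Ultrafilter.coe_map, le_principal_iff, mem_map]
    refine univ_mem' fun n => ?_
    obtain ⟨x, hx, hxm, -⟩ := hm n
    exact ⟨x, hx, hxm⟩)
  have hmt : Tendsto m 𝒰 (𝓝 m₀) := hm₀
  have hm₀F := (fb_lim G.cone G.lat G.tor hmt hyt (Eventually.of_forall hm)).1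
  obtain ⟨χ, c, ρ, hcap⟩ := hc.cap y₀ hy₀G m₀ hm₀F
  have hε := hc.ε_pos
  have hρ0 : 0 < ρ := hcap.str.pos
  have hρ : (ρ : ℂ) ≠ 0 := by exact_mod_cast hρ0.ne'
  obtain ⟨C₁, hC₁⟩ := jb_lower G.cone χ
  obtain ⟨C₂, hC₂0, hC₂⟩ := jb_tc (Λ := Λ) (u := u) G.cone χ
  have e1 : ∀ᶠ n in (𝒰 : Filter ℕ), y n ∈ closedBall y₀ (3 * ε) := hyt.eventually (closedBall_mem_nhds _ (by positivity))
  have e2 : ∀ᶠ n in (𝒰 : Filter ℕ), dist (m n) m₀ < ε := hmt.eventually (ball_mem_nhds _ hε)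
  have e3 : ∀ᶠ n : ℕ in (𝒰 : Filter ℕ), C₂ * C₁ / ρ ^ (k + 1) ≤ (n : ℝ) := by
    have h1 : ∀ᶠ n : ℕ in atTop, C₂ * C₁ / ρ ^ (k + 1) ≤ (n : ℝ) := tendsto_natCast_atTop_atTop.eventually_ge_atTop _
    exact Nat.hyperfilter_le_atTop h1
  obtain ⟨n, h1, h2, h3⟩ := (e1.and (e2.and e3)).exists
  obtain ⟨A, hA⟩ := exists_prim (α n) χ hcap.str
  have hrel := hc.rel (y n) (hy n) (m n) (hm n) (m' n) (hm' n) (hd n) (α n)
  obtain ⟨v, hv⟩ := hrel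
  obtain ⟨⟨x, hxX, hxm, hxu⟩, ⟨x', hxX', hxm', hxu'⟩, hdd⟩ := hv.mem
  obtain ⟨hxU, hq, hqy⟩ := hcap.cap (y n) h1 x hxX hxu (by rw [hxm]; linarith)
  obtain ⟨hxU', hq', hqy'⟩ := hcap.cap (y n) h1 x' hxX' hxu' (by
    rw [hxm']
    have h4 := dist_triangle (m' n) (m n) m₀
    linarith)
  have hII := II_eq G.cone G.tor G.lat ⟨v, hv⟩ hcap hA h1 (by linarith) hxX hxX' hxm hxm'
  have hprq : ∀ z ∈ X, z ∈ χ.U → pr (χ.σ (χ.q z)) = pr z := by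
    intro z hz hzU
    obtain ⟨hb, a, ha, e⟩ := χ.surj z hz hzU
    conv_rhs => rw [e]
    exact (Pool.Agent.H62.EF.pr_smul _ ha).symm
  have h4 : ‖χ.q x' - χ.q x‖ ≤ C₁ * dist (m n) (m' n) := by
    have h5 := hC₁ _ hq' _ hq
    rw [hprq x hxX hxU, hprq x' hxX' hxU', hxm, hxm', dist_comm] at h5
    exact h5
  have h5 : ‖A (χ.q x') - A (χ.q x)‖ ≤ C₂ * M n * ‖χ.q x' - χ.q x‖ := by
    refine jb_seg hA hρ hq hq' hqy hqy' fun q hqB hqy => ?_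
    refine hC₂ c ρ hcap.str (α n) (M n) q hqB ?_
    rw [hqy]
    exact hM n
  have h6 := hlt n
  rw [hII, norm_div, norm_pow, Complex.norm_real, Real.norm_of_nonneg hρ0.le] at h6
  have hρk : 0 < ρ ^ (k + 1) := pow_pos hρ0 _
  have hdn : 0 ≤ dist (m n) (m' n) := dist_nonneg
  have h7 : ‖A (χ.q x') - A (χ.q x)‖ / ρ ^ (k + 1) ≤ (C₂ * C₁ / ρ ^ (k + 1)) * M n * dist (m n) (m' n) := by
    rw [div_le_iff₀ hρk]
    have h8 : C₂ * C₁ / ρ ^ (k + 1) * M n * dist (m n) (m' n) * ρ ^ (k + 1) = C₂ * M n * (C₁ * dist (m n) (m' n)) := by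
      field_simp
    rw [h8]
    exact h5.trans (mul_le_mul_of_nonneg_left h4 (mul_nonneg hC₂0 (hM0 n)))
  have h8 : (C₂ * C₁ / ρ ^ (k + 1)) * M n * dist (m n) (m' n) ≤ ((n : ℝ) + 1) * M n * dist (m n) (m' n) := by
    have h9 : C₂ * C₁ / ρ ^ (k + 1) ≤ (n : ℝ) + 1 := by linarith
    exact mul_le_mul_of_nonneg_right (mul_le_mul_of_nonneg_right h9 (hM0 n)) hdn
  linarith

theorem jb (G : Geo X Λ u D B) {α : VForm X Λ u} {c₀ C₀ : ℝ} (hα : Dec α c₀ C₀) (hC : 0 < C₀) {δ ε ε₀ : ℝ} (hc : Cst X Λ u D δ ε ε₀) : ∃ C : ℝ, 0 < C ∧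
    ∀ y ∈ Gd D δ, ∀ m ∈ Fb X Λ u y, ∀ m' ∈ Fb X Λ u y, dist m m' ≤ ε₀ → ‖II α ε y m m'‖ ≤ C * Real.exp (-(c₀ * ‖y‖ ^ 2)) * dist m m' := by
  obtain ⟨R, -, hR⟩ := G.lat.cpt
  obtain ⟨C, hC0, h⟩ := jb_bdd G hc R
  refine ⟨C * C₀, by positivity, fun y hy m hm m' hm' hd => ?_⟩
  obtain ⟨l, hl, hyl⟩ := hR y
  have h1 : y - l ∈ Gd D δ := by
    rw [sub_eq_add_neg]
    exact (G.gd_add δ (Λ.neg_mem hl)).2 hy
  have h2 : Fb X Λ u (y - l) = Fb X Λ u y := by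
    rw [sub_eq_add_neg, fb_add (Λ.neg_mem hl)]
  have h3 := h (y - l) h1 hyl m (by rw [h2]; exact hm) m' (by rw [h2]; exact hm') hd (α.shift hl) (C₀ * Real.exp (-(c₀ * ‖y‖ ^ 2)))
    (by positivity) (by
      intro x hx hxu v hv hvn
      have e : y - l + l = y := sub_add_cancel y l
      show ‖α.toFun (y - l + l) x v‖ ≤ _
      rw [e]
      refine hα y x hx ?_ v hv hvn
      have e2 : u x - y = u x - (y - l) - l := by abel
      rw [e2]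
      exact Λ.sub_mem hxu hl)
  rw [II_shift, sub_add_cancel] at h3
  calc ‖II α ε y m m'‖ ≤ C * (C₀ * Real.exp (-(c₀ * ‖y‖ ^ 2))) * dist m m' := h3
    _ = C * C₀ * Real.exp (-(c₀ * ‖y‖ ^ 2)) * dist m m' := by ring

end Pool.Agent.G3.A
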