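import Pool.Agent.H94.G4T.G3.A.Idn
import Pool.Agent.H94.G4T.M58

/-!
# G3 A Shts: the sheets over `b + E`

`chain_ext`: abstract lemma (no topology): `E` a real normed space, `H : E → Set β`, `η > 0` and maps `τ v w : β → β` (for `‖v - w‖ ≤ η`: `H v → H w`, `τ v v = id`, `τ v w ∘ τ u v = τ u w` if all
three distances are `≤ η`): for every `f ∈ H 0` there is a section `φ`, `φ 0 = f`, `φ w = τ v w (φ v)` for `‖v - w‖ ≤ η / 3`.  Proof: subdivide the segment `[0, v]` into `n` equal steps (`‖v‖ / n ≤ η / 3`); the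
result does not depend on `n` (compare `n` and `n m`), and it is compatible for near `v`, `w` (compare step by step).
`exists_sht`: `H v = Hc (b + v)`, `τ` from `near_exists`; `φ (b + v) = F_v 0` for `v ∈ E`; `F_{v + z a} = F_v (z + ·)`: both are continuous in `z` and near (uniqueness).
-/

set_option autoImplicit false

open Topology Filter Metric

namespace Pool.Agent.G3.A

open Pool.Agent.H36.BP (EN fs wd)
open Pool.Agent.H14.PP (IsCone CurveAt Tan)
open Pool.Agent.H62.EF (MN pr)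
open Pool.Agent.AD (Vd Chart Charts IsGerm)
open Pool.Agent.TG
open Pool.Agent.G3.C (Gc)

section chain

variable {V β : Type*} [NormedAddCommGroup V] [NormedSpace ℝ V]

/-- the values along the subdivided segment from `0` to `v` -/
private noncomputable def chP (τ : V → V → β → β) (f : β) (n : ℕ) (v : V) : ℕ → β
  | 0 => f
  | i + 1 => τ (((i : ℝ) / n) • v) ((((i + 1 : ℕ) : ℝ) / n) • v) (chP τ f n v i)

private theorem ch_step {n : ℕ} (hn : 0 < n) (v : V) (i : ℕ) : ‖((i : ℝ) / n) • v - (((i + 1 : ℕ) : ℝ) / n) • v‖ = ‖v‖ / n := by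
  have hn0 : (0 : ℝ) < n := by exact_mod_cast hn
  rw [← sub_smul, norm_smul]
  have h : (i : ℝ) / n - ((i + 1 : ℕ) : ℝ) / n = -(1 / n) := by
    push_cast
    field_simp
    ring
  rw [h, norm_neg, Real.norm_of_nonneg (by positivity)]
  ring

variable {H : V → Set β} {η : ℝ} {τ : V → V → β → β}

private theorem ch_mem (h1 : ∀ v w, ‖v - w‖ ≤ η → ∀ f ∈ H v, τ v w f ∈ H w) {f : β} (hf : f ∈ H 0) {n : ℕ} (hn : 0 < n) {v : V} (hv : ‖v‖ / n ≤ η) (i : ℕ) :
    chP τ f n v i ∈ H (((i : ℝ) / n) • v) := by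
  induction i with
  | zero => simpa [chP] using hf
  | succ i ih =>
    refine h1 _ _ ?_ _ ih
    rw [ch_step hn]
    exact hv

/-- compatibility of two segments -/
private theorem ch_comp (hη : 0 < η) (h1 : ∀ v w, ‖v - w‖ ≤ η → ∀ f ∈ H v, τ v w f ∈ H w) (h2 : ∀ v, ∀ f ∈ H v, τ v v f = f)
    (h3 : ∀ u v w, ‖u - v‖ ≤ η → ‖v - w‖ ≤ η → ‖u - w‖ ≤ η → ∀ f ∈ H u, τ v w (τ u v f) = τ u w f) {f : β} (hf : f ∈ H 0)
    {n : ℕ} (hn : 0 < n) {v w : V} (hv : ‖v‖ / n ≤ η / 3) (hw : ‖w‖ / n ≤ η / 3) (hvw : ‖v - w‖ ≤ η / 3) {i : ℕ} (hi : i ≤ n) :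
    chP τ f n w i = τ (((i : ℝ) / n) • v) (((i : ℝ) / n) • w) (chP τ f n v i) := by
  have hn0 : (0 : ℝ) < n := by exact_mod_cast hn
  have hd : ∀ j : ℕ, j ≤ n → ‖((j : ℝ) / n) • v - ((j : ℝ) / n) • w‖ ≤ η / 3 := by
    intro j hj
    rw [← smul_sub, norm_smul, Real.norm_of_nonneg (by positivity)]
    have h4 : (j : ℝ) / n ≤ 1 := by
      rw [div_le_one hn0]
      exact_mod_cast hj
    have h5 := mul_le_mul h4 hvw (norm_nonneg _) zero_le_one
    linarith only [h5]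
  induction i with
  | zero =>
    have h4 := h2 0 f hf
    simpa [chP] using h4.symm
  | succ i ih =>
    have hi' : i ≤ n := by omega
    have hm := ch_mem h1 hf hn (v := v) (by linarith only [hη, hv]) i
    have s1 := ch_step hn v i
    have s2 := ch_step hn w i
    have d1 := hd i hi'
    have d2 := hd (i + 1) hi
    have d3 : ‖((i : ℝ) / n) • v - (((i + 1 : ℕ) : ℝ) / n) • w‖ ≤ η := by
      have h4 : ((i : ℝ) / n) • v - (((i + 1 : ℕ) : ℝ) / n) • w
          = (((i : ℝ) / n) • v - ((i : ℝ) / n) • w) + (((i : ℝ) / n) • w - (((i + 1 : ℕ) : ℝ) / n) • w) := by abel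
      rw [h4]
      refine (norm_add_le _ _).trans ?_
      rw [s2]
      linarith only [hη, hw, d1]
    rw [chP, ih hi', chP]
    rw [h3 _ _ _ (by linarith only [hη, d1]) (by rw [s2]; linarith only [hη, hw]) d3 _ hm, h3 _ _ _ (by rw [s1]; linarith only [hη, hv]) (by linarith only [hη, d2]) d3 _ hm]

/-- refinement of the subdivision -/
private theorem ch_ref (h1 : ∀ v w, ‖v - w‖ ≤ η → ∀ f ∈ H v, τ v w f ∈ H w) (h2 : ∀ v, ∀ f ∈ H v, τ v v f = f)
    (h3 : ∀ u v w, ‖u - v‖ ≤ η → ‖v - w‖ ≤ η → ‖u - w‖ ≤ η → ∀ f ∈ H u, τ v w (τ u v f) = τ u w f) {f : β} (hf : f ∈ H 0)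
    {n m : ℕ} (hn : 0 < n) (hm : 0 < m) {v : V} (hv : ‖v‖ / n ≤ η) (i : ℕ) : chP τ f (n * m) v (i * m) = chP τ f n v i := by
  have hn0 : (0 : ℝ) < n := by exact_mod_cast hn
  have hm0 : (0 : ℝ) < m := by exact_mod_cast hm
  have hnm : 0 < n * m := Nat.mul_pos hn hm
  have hv' : ‖v‖ / ((n * m : ℕ) : ℝ) ≤ η := by
    have h4 : ‖v‖ / ((n * m : ℕ) : ℝ) ≤ ‖v‖ / n := by
      refine div_le_div_of_nonneg_left (norm_nonneg _) hn0 ?_
      push_cast
      have h5 : (1 : ℝ) ≤ m := by exact_mod_cast hm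
      nlinarith only [h5]
    exact h4.trans hv
  have hpt : ∀ j : ℕ, (((j * m : ℕ) : ℝ) / ((n * m : ℕ) : ℝ)) = (j : ℝ) / n := by
    intro j
    push_cast
    field_simp
  have key : ∀ i j : ℕ, j ≤ m → chP τ f (n * m) v (i * m + j)
      = τ (((i : ℝ) / n) • v) ((((i * m + j : ℕ) : ℝ) / ((n * m : ℕ) : ℝ)) • v) (chP τ f (n * m) v (i * m)) := by
    intro i j
    have hmem := ch_mem h1 hf hnm hv' (i * m)
    rw [hpt] at hmem
    have hdist : ∀ j : ℕ, j ≤ m → ‖((i : ℝ) / n) • v - (((i * m + j : ℕ) : ℝ) / ((n * m : ℕ) : ℝ)) • v‖ ≤ η := by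
      intro j hj
      rw [← sub_smul, norm_smul]
      have h4 : (i : ℝ) / n - ((i * m + j : ℕ) : ℝ) / ((n * m : ℕ) : ℝ) = -((j : ℝ) / (n * m)) := by
        push_cast
        field_simp
        ring
      rw [h4, norm_neg, Real.norm_of_nonneg (by positivity)]
      have h5 : (j : ℝ) / (n * m) ≤ 1 / n := by
        rw [div_le_div_iff₀ (by positivity) hn0]
        have h6 : (j : ℝ) ≤ m := by exact_mod_cast hj
        nlinarith only [h6]
      calc (j : ℝ) / (n * m) * ‖v‖ ≤ 1 / n * ‖v‖ := mul_le_mul_of_nonneg_right h5 (norm_nonneg _)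
        _ = ‖v‖ / n := by ring
        _ ≤ η := hv
    induction j with
    | zero =>
      intro _
      have h4 := h2 _ _ hmem
      rw [add_zero, hpt]
      exact h4.symm
    | succ j ih =>
      intro hj
      have ih' := ih (by omega)
      have e1 : i * m + (j + 1) = (i * m + j) + 1 := by ring
      rw [e1, chP, ih']
      refine h3 _ _ _ (hdist j (by omega)) ?_ ?_ _ hmem
      · rw [ch_step hnm]
        exact hv'
      · have h4 := hdist (j + 1) hj
        rwa [e1] at h4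
  induction i with
  | zero => simp [chP]
  | succ i ih =>
    have h4 := key i m le_rfl
    have e1 : (i + 1) * m = i * m + m := by ring
    rw [e1, h4, ih, ← e1, hpt (i + 1), chP]

end chain

theorem chain_ext {V β : Type*} [NormedAddCommGroup V] [NormedSpace ℝ V] {H : V → Set β} {η : ℝ} (hη : 0 < η) {τ : V → V → β → β}
    (h1 : ∀ v w, ‖v - w‖ ≤ η → ∀ f ∈ H v, τ v w f ∈ H w) (h2 : ∀ v, ∀ f ∈ H v, τ v v f = f)
    (h3 : ∀ u v w, ‖u - v‖ ≤ η → ‖v - w‖ ≤ η → ‖u - w‖ ≤ η → ∀ f ∈ H u, τ v w (τ u v f) = τ u w f) {f : β} (hf : f ∈ H 0) :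
    ∃ φ : V → β, φ 0 = f ∧ (∀ v, φ v ∈ H v) ∧ ∀ v w, ‖v - w‖ ≤ η / 3 → φ w = τ v w (φ v) := by
  have hN : ∀ v : V, ∃ n : ℕ, 0 < n ∧ ‖v‖ / n ≤ η / 3 := by
    intro v
    obtain ⟨n, hn⟩ := exists_nat_gt (‖v‖ / (η / 3))
    have hn0 : (0 : ℝ) < n := lt_of_le_of_lt (by positivity) hn
    refine ⟨n, by exact_mod_cast hn0, ?_⟩
    rw [div_lt_iff₀ (by positivity)] at hn
    rw [div_le_iff₀ hn0]
    linarith only [hn]
  choose n hn hnv using hN
  have hQ : ∀ v : V, ∀ m : ℕ, 0 < m → ‖v‖ / m ≤ η / 3 → chP τ f m v m = chP τ f (n v) v (n v) := by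
    intro v m hm hmv
    have e1 := ch_ref h1 h2 h3 hf hm (hn v) (v := v) (by linarith only [hη, hmv]) m
    have e2 := ch_ref h1 h2 h3 hf (hn v) hm (v := v) (by linarith only [hη, hnv, hnv v]) (n v)
    rw [← e1, ← e2, mul_comm m (n v)]
  refine ⟨fun v => chP τ f (n v) v (n v), ?_, fun v => ?_, fun v w hvw => ?_⟩
  · have h4 : ∀ i, chP τ f (n 0) (0 : V) i = f := by
      intro i
      induction i with
      | zero => rfl
      | succ i ih =>
        rw [chP, ih, smul_zero, smul_zero]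
        exact h2 0 f hf
    exact h4 _
  · have h4 := ch_mem h1 hf (hn v) (v := v) (by linarith only [hη, hnv, hnv v]) (n v)
    have h5 : ((n v : ℝ) / n v) • v = v := by
      rw [div_self (by exact_mod_cast (hn v).ne'), one_smul]
    rwa [h5] at h4
  · have hnn : 0 < n v * n w := Nat.mul_pos (hn v) (hn w)
    have hv0 : (0 : ℝ) < n v := by exact_mod_cast hn v
    have hw0 : (0 : ℝ) < n w := by exact_mod_cast hn w
    have hv1 : (1 : ℝ) ≤ n v := by exact_mod_cast hn v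
    have hw1 : (1 : ℝ) ≤ n w := by exact_mod_cast hn w
    have hv : ‖v‖ / ((n v * n w : ℕ) : ℝ) ≤ η / 3 := by
      refine le_trans (div_le_div_of_nonneg_left (norm_nonneg _) hv0 ?_) (hnv v)
      push_cast
      nlinarith only [hw1]
    have hw : ‖w‖ / ((n v * n w : ℕ) : ℝ) ≤ η / 3 := by
      refine le_trans (div_le_div_of_nonneg_left (norm_nonneg _) hw0 ?_) (hnv w)
      push_cast
      nlinarith only [hv1]
    have h4 := ch_comp hη h1 h2 h3 hf hnn hv hw hvw (i := n v * n w) le_rfl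
    have h5 : (((n v * n w : ℕ) : ℝ) / ((n v * n w : ℕ) : ℝ)) = 1 := div_self (by exact_mod_cast hnn.ne')
    rw [h5, one_smul, one_smul, hQ w _ hnn hw, hQ v _ hnn hv] at h4
    exact h4

variable {N k : ℕ} {X : Set (EN N)} {Λ : AddSubgroup (Vd (k + 1))} {u : EN N → Vd (k + 1)} {D B Bad : Set (Vd (k + 1))} {a : Vd (k + 1)}

variable {J : ℕ} {α : Fin J → VForm X Λ u} {c₀ C₀ ρ δ : ℝ} {E : Submodule ℝ (Vd (k + 1))} {b : Vd (k + 1)}

theorem mem_tb (v : E) : b + (v : Vd (k + 1)) ∈ Tb b E := by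
  show b + (v : Vd (k + 1)) - b ∈ E
  rw [add_sub_cancel_left]
  exact v.2

/-- the shift along the line -/
theorem sh_shift (hX : IsCone X) (ha : ‖a‖ = 1) (hE : ∀ z : ℂ, z • a ∈ E) {R θ η : ℝ} {τ : E → E → (ℂ → MN N) → ℂ → MN N} (hθ : 0 < θ)
    (hη : 0 < η)
    (t3 : ∀ v w : E, ‖v - w‖ ≤ η → ∀ f ∈ Hc X Λ u a (b + v), ∀ f' ∈ Hc X Λ u a (b + w),
        (∀ z ∈ closedBall (0 : ℂ) R, b + v + z • a ∈ Gd D (3 / 4 * δ) → dist (f' z) (f z) ≤ 2 * θ) → f' = τ v w f)
    {ψ : E → ℂ → MN N} (p1 : ∀ v : E, ψ v ∈ Hc X Λ u a (b + v)) (p2 : ∀ v w : E, ‖v - w‖ ≤ η / 3 → ψ w = τ v w (ψ v)) (v : E) (z : ℂ) :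
    ψ (v + ⟨z • a, hE z⟩) = fun w => ψ v (z + w) := by
  have hcont : Continuous (ψ v) := hc_cont hX (p1 v)
  have huc : UniformContinuousOn (ψ v) (closedBall (0 : ℂ) (R + ‖z‖)) :=
    (isCompact_closedBall _ _).uniformContinuousOn_of_continuous hcont.continuousOn
  obtain ⟨ε, hε, hu⟩ := Metric.uniformContinuousOn_iff.1 huc θ hθ
  obtain ⟨n, hn⟩ := exists_nat_gt (max (‖z‖ / ε) (‖z‖ / (η / 3)))
  have hn1 : ‖z‖ / ε < n := (le_max_left _ _).trans_lt hn
  have hn2 : ‖z‖ / (η / 3) < n := (le_max_right _ _).trans_lt hn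
  have hn0 : (0 : ℝ) < n := lt_of_le_of_lt (by positivity) hn1
  have hn0' : (n : ℂ) ≠ 0 := by
    have : (n : ℝ) ≠ 0 := hn0.ne'
    exact_mod_cast this
  rw [div_lt_iff₀ hε] at hn1
  rw [div_lt_iff₀ (by positivity)] at hn2
  have hstep1 : ‖z‖ / n < ε := by
    rw [div_lt_iff₀ hn0]
    linarith only [hn1]
  have hstep2 : ‖z‖ / n ≤ η / 3 := by
    rw [div_le_iff₀ hn0]
    linarith only [hn2]
  -- the points of the subdivision
  have hz : ∀ i : ℕ, ‖((i : ℂ) / n * z) - (((i + 1 : ℕ) : ℂ) / n * z)‖ = ‖z‖ / n := by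
    intro i
    have e : ((i : ℂ) / n * z) - (((i + 1 : ℕ) : ℂ) / n * z) = -(z / n) := by
      push_cast
      field_simp
      ring
    rw [e, norm_neg, norm_div, Complex.norm_natCast]
  have hzi : ∀ i : ℕ, i ≤ n → ‖(i : ℂ) / n * z‖ ≤ ‖z‖ := by
    intro i hi
    rw [norm_mul, norm_div, Complex.norm_natCast, Complex.norm_natCast]
    have h4 : (i : ℝ) / n ≤ 1 := by
      rw [div_le_one hn0]
      exact_mod_cast hi
    exact mul_le_of_le_one_left (norm_nonneg _) h4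
  have hG : ∀ z' : ℂ, (fun w => ψ v (z' + w)) ∈ Hc X Λ u a (b + ((v + ⟨z' • a, hE z'⟩ : E) : Vd (k + 1))) := by
    intro z'
    have h4 := hc_add (p1 v) z'
    rwa [add_assoc] at h4
  have key : ∀ i : ℕ, i ≤ n → ψ (v + ⟨((i : ℂ) / n * z) • a, hE _⟩) = fun w => ψ v ((i : ℂ) / n * z + w) := by
    intro i
    induction i with
    | zero =>
      intro _
      have e : (⟨(((0 : ℕ) : ℂ) / n * z) • a, hE _⟩ : E) = 0 := by
        ext1
        simp
      rw [e, add_zero]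
      funext w
      congr 1
      simp
    | succ i ih =>
      intro hi
      have ih' := ih (by omega)
      have hd : ‖(v + ⟨((i : ℂ) / n * z) • a, hE _⟩ : E) - (v + ⟨(((i + 1 : ℕ) : ℂ) / n * z) • a, hE _⟩)‖ = ‖z‖ / n := by
        rw [add_sub_add_left_eq_sub, Submodule.coe_norm, Submodule.coe_sub]
        show ‖((i : ℂ) / n * z) • a - (((i + 1 : ℕ) : ℂ) / n * z) • a‖ = ‖z‖ / n
        rw [← sub_smul, norm_smul, ha, mul_one]
        exact hz i
      rw [p2 _ _ (by rw [hd]; exact hstep2), ih']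
      symm
      refine t3 _ _ (by rw [hd]; linarith only [hη, hstep2]) _ (hG _) _ (hG _) fun w hw _ => ?_
      have hw' : ‖w‖ ≤ R := by
        rwa [mem_closedBall_zero_iff] at hw
      have h5 : dist (ψ v (((i + 1 : ℕ) : ℂ) / n * z + w)) (ψ v ((i : ℂ) / n * z + w)) < θ := by
        refine hu _ ?_ _ ?_ ?_
        · rw [mem_closedBall_zero_iff]
          refine (norm_add_le _ _).trans ?_
          have := hzi (i + 1) hi
          linarith only [hw', this]
        · rw [mem_closedBall_zero_iff]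
          refine (norm_add_le _ _).trans ?_
          have := hzi i (by omega)
          linarith only [hw', this]
        · rw [dist_comm, dist_eq_norm, add_sub_add_right_eq_sub, hz i]
          exact hstep1
      linarith only [hθ, h5]
  have h6 := key n le_rfl
  have e : (n : ℂ) / n * z = z := by
    rw [div_self hn0', one_mul]
  rw [e] at h6
  exact h6

theorem sht_lm (S : DA X Λ u D B Bad a α c₀ C₀ ρ δ) (hE : CE X Λ u a b E) {φ : Vd (k + 1) → MN N} (hφ : Sht X Λ u D a (Tb b E) φ) {ι : Type*} {𝒰 : Ultrafilter ι} {y : ι → Vd (k + 1)}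
    {y₀ : Vd (k + 1)} (hy : Tendsto y 𝒰 (𝓝 y₀)) (hyT : ∀ᶠ n in (𝒰 : Filter ι), y n ∈ Tb b E) (hy₀ : y₀ ∈ Tb b E) :
    Lm D a 𝒰 y₀ (fun n z => φ (y n + z • a)) fun z => φ (y₀ + z • a) := by
  intro z hz w hw
  have h1 := hφ.cont (y₀ + z • a) (tb_add hy₀ (hE.mem z)) hz
  exact h1.tendsto.comp (tendsto_nhdsWithin_iff.2 ⟨hy.add (hw.smul_const a), hyT.mono fun n hn => tb_add hn (hE.mem (w n))⟩)

theorem sht_add {φ : Vd (k + 1) → MN N} (hφ : Sht X Λ u D a (Tb b E) φ) (hL : LG Λ D Bad a) {l : Vd (k + 1)} (hl : l ∈ Λ) (hlE : l ∈ E) :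
    Sht X Λ u D a (Tb b E) fun y => φ (y + l) := by
  refine ⟨fun y hy => ?_, fun y hy hyD => ?_⟩
  · have h1 := hφ.line (y + l) (tb_add hy hlE)
    rw [hc_per hl] at h1
    have h2 : (fun z : ℂ => φ (y + z • a + l)) = fun z => φ (y + l + z • a) := by
      funext z
      rw [add_right_comm]
    rw [h2]
    exact h1
  · have h1 : y + l ∉ D := by
      intro h2
      have h3 := hL.D_inv _ h2 (-l) (Λ.neg_mem hl)
      rw [add_neg_cancel_right] at h3
      exact hyD h3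
    have h2 := hφ.cont (y + l) (tb_add hy hlE) h1
    have h3 : Tendsto (fun x : Vd (k + 1) => x + l) (𝓝 y) (𝓝 (y + l)) := (continuous_id.add continuous_const).tendsto y
    exact h2.tendsto.comp (tendsto_nhdsWithin_iff.2 ⟨h3.mono_left nhdsWithin_le_nhds, eventually_mem_nhdsWithin.mono fun x hx => tb_add hx hlE⟩)

end Pool.Agent.G3.A
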